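import Mathlib

/-!
# Counting Tesler matrices

Adding a last column to a Tesler matrix with diagonal `d` amounts to choosing `b ≤ d`; the new diagonal is
`d - b` followed by the new hook sum plus `∑ b`. This gives the numbers of Tesler matrices as
iterated sums, for which product lower bounds are proved.
-/

set_option autoImplicit false

namespace Pool.Agent.Results.MP_1235ca_co.TeslerBound

open Finset

/-- `A` is a Tesler matrix with hook sums `α`: upper triangular with nonnegative integer entries, and for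
every `i` the sum of row `i` from the diagonal rightwards equals `α i` plus the sum of the part of
column `i` strictly above the diagonal. -/
def IsTesler {n : ℕ} (α : Fin n → ℕ) (A : Fin n → Fin n → ℕ) : Prop :=
  (∀ i j : Fin n, j < i → A i j = 0) ∧
    ∀ i : Fin n, ∑ j ∈ Finset.Ici i, A i j = α i + ∑ j ∈ Finset.Iio i, A j i

/-- `T α` is the number of Tesler matrices with hook sums `α`. -/
noncomputable def T {n : ℕ} (α : Fin n → ℕ) : ℕ := Nat.card {A : Fin n → Fin n → ℕ // IsTesler α A}

/-- the same condition with full sums -/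
def IsT {n : ℕ} (α : Fin n → ℕ) (A : Fin n → Fin n → ℕ) : Prop :=
  (∀ i j : Fin n, j < i → A i j = 0) ∧ ∀ i : Fin n, ∑ j, A i j + A i i = α i + ∑ j, A j i

theorem isTesler_iff {n : ℕ} (α : Fin n → ℕ) (A : Fin n → Fin n → ℕ) :
    IsTesler α A ↔ IsT α A := by
  unfold IsTesler IsT
  refine and_congr_right fun h => forall_congr' fun i => ?_
  have h1 : ∑ j, A i j = ∑ j ∈ Finset.Ici i, A i j := by
    symm
    apply Finset.sum_subset (Finset.subset_univ _)
    intro j _ hj
    rw [Finset.mem_Ici, not_le] at hj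
    exact h i j hj
  have h2 : ∑ j, A j i = ∑ j ∈ Finset.Iio i, A j i + A i i := by
    have h3 : ∑ j ∈ insert i (Finset.Iio i), A j i = ∑ j, A j i := by
      apply Finset.sum_subset (Finset.subset_univ _)
      intro j _ hj
      rw [Finset.mem_insert, Finset.mem_Iio, not_or] at hj
      exact h j i (lt_of_le_of_ne (not_lt.1 hj.2) (Ne.symm hj.1))
    rw [← h3, Finset.sum_insert (by simp)]
    ring
  rw [h1, h2]
  omega

theorem diag_sum {n : ℕ} {α : Fin n → ℕ} {A : Fin n → Fin n → ℕ} (h : IsT α A) :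
    ∑ i, A i i = ∑ i, α i := by
  have h1 : ∑ i, (∑ j, A i j + A i i) = ∑ i, (α i + ∑ j, A j i) :=
    Finset.sum_congr rfl fun i _ => h.2 i
  rw [Finset.sum_add_distrib, Finset.sum_add_distrib, Finset.sum_comm (f := fun i j => A i j)] at h1
  omega

/-- restriction to the first `n` rows and columns, the last column being moved to the diagonal -/
def proj {n : ℕ} (A : Fin (n + 1) → Fin (n + 1) → ℕ) : Fin n → Fin n → ℕ :=
  fun i j => A i.castSucc j.castSucc + if i = j then A i.castSucc (Fin.last n) else 0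

def bvec {n : ℕ} (A : Fin (n + 1) → Fin (n + 1) → ℕ) : Fin n → ℕ := fun i => A i.castSucc (Fin.last n)

/-- extension by a last column -/
def ext {n : ℕ} (A : Fin n → Fin n → ℕ) (b : Fin n → ℕ) (β : ℕ) :
    Fin (n + 1) → Fin (n + 1) → ℕ :=
  Fin.snoc (α := fun _ => Fin (n + 1) → ℕ)
    (fun i => Fin.snoc (α := fun _ => ℕ) (fun j => A i j - if i = j then b i else 0) (b i))
    (Fin.snoc (α := fun _ => ℕ) (fun _ => 0) (β + ∑ i, b i))

theorem ext_cc {n : ℕ} (A : Fin n → Fin n → ℕ) (b : Fin n → ℕ) (β : ℕ) (i j : Fin n) :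
    ext A b β i.castSucc j.castSucc = A i j - if i = j then b i else 0 := by
  simp [ext]

theorem ext_cl {n : ℕ} (A : Fin n → Fin n → ℕ) (b : Fin n → ℕ) (β : ℕ) (i : Fin n) :
    ext A b β i.castSucc (Fin.last n) = b i := by
  simp [ext]

theorem ext_lc {n : ℕ} (A : Fin n → Fin n → ℕ) (b : Fin n → ℕ) (β : ℕ) (j : Fin n) :
    ext A b β (Fin.last n) j.castSucc = 0 := by
  simp [ext]

theorem ext_ll {n : ℕ} (A : Fin n → Fin n → ℕ) (b : Fin n → ℕ) (β : ℕ) :
    ext A b β (Fin.last n) (Fin.last n) = β + ∑ i, b i := by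
  simp [ext]

theorem proj_isT {n : ℕ} {α : Fin (n + 1) → ℕ} {A : Fin (n + 1) → Fin (n + 1) → ℕ} (h : IsT α A) :
    IsT (fun i => α i.castSucc) (proj A) := by
  refine ⟨?_, ?_⟩
  · intro i j hij
    unfold proj
    rw [if_neg (ne_of_gt hij), h.1 _ _ (by simpa using hij)]
  · intro i
    have h1 := h.2 i.castSucc
    rw [Fin.sum_univ_castSucc, Fin.sum_univ_castSucc] at h1
    have h2 : A (Fin.last n) i.castSucc = 0 := h.1 _ _ (Fin.castSucc_lt_last i)
    unfold proj
    simp only [Finset.sum_add_distrib, Finset.sum_ite_eq, Finset.sum_ite_eq', Finset.mem_univ,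
      if_true]
    omega

theorem ext_isT {n : ℕ} {α : Fin n → ℕ} {A : Fin n → Fin n → ℕ} (h : IsT α A) (b : Fin n → ℕ)
    (hb : ∀ i, b i ≤ A i i) (α' : Fin (n + 1) → ℕ) (hα : ∀ i : Fin n, α' i.castSucc = α i) :
    IsT α' (ext A b (α' (Fin.last n))) := by
  refine ⟨?_, ?_⟩
  · intro i j hij
    induction i using Fin.lastCases with
    | last =>
      induction j using Fin.lastCases with
      | last => exact absurd hij (lt_irrefl _)
      | cast j => rw [ext_lc]
    | cast i =>
      induction j using Fin.lastCases with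
      | last => exact absurd hij (not_lt.2 (Fin.le_last _))
      | cast j =>
        rw [ext_cc, h.1 i j (by simpa using hij)]
        simp
  · intro i
    induction i using Fin.lastCases with
    | last =>
      rw [Fin.sum_univ_castSucc, Fin.sum_univ_castSucc]
      simp only [ext_lc, ext_ll, ext_cl, Finset.sum_const_zero]
      omega
    | cast i =>
      rw [Fin.sum_univ_castSucc, Fin.sum_univ_castSucc]
      simp only [ext_cc, ext_cl, ext_lc, hα, if_true]
      have h1 := h.2 i
      have h2 : ∑ j, (A i j - if i = j then b i else 0) + b i = ∑ j, A i j := by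
        have : ∀ j, A i j = (A i j - if i = j then b i else 0) + if i = j then b i else 0 := by
          intro j
          by_cases hij : i = j
          · subst hij; simp [hb]
          · simp [hij]
        conv_rhs => rw [Finset.sum_congr rfl fun j _ => this j]
        rw [Finset.sum_add_distrib]
        simp
      have h3 : ∑ j, (A j i - if j = i then b j else 0) + b i = ∑ j, A j i := by
        have : ∀ j, A j i = (A j i - if j = i then b j else 0) + if j = i then b j else 0 := by
          intro j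
          by_cases hij : j = i
          · subst hij; simp [hb]
          · simp [hij]
        conv_rhs => rw [Finset.sum_congr rfl fun j _ => this j]
        rw [Finset.sum_add_distrib]
        simp
      have h4 := hb i
      omega

theorem ext_proj {n : ℕ} {α : Fin (n + 1) → ℕ} {A : Fin (n + 1) → Fin (n + 1) → ℕ} (h : IsT α A) :
    ext (proj A) (bvec A) (α (Fin.last n)) = A := by
  funext i j
  induction i using Fin.lastCases with
  | last =>
    induction j using Fin.lastCases with
    | last =>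
      rw [ext_ll]
      have h1 := h.2 (Fin.last n)
      rw [Fin.sum_univ_castSucc, Fin.sum_univ_castSucc] at h1
      have h2 : ∑ j : Fin n, A (Fin.last n) j.castSucc = 0 :=
        Finset.sum_eq_zero fun j _ => h.1 _ _ (Fin.castSucc_lt_last j)
      unfold bvec
      omega
    | cast j => rw [ext_lc, h.1 _ _ (Fin.castSucc_lt_last j)]
  | cast i =>
    induction j using Fin.lastCases with
    | last => rw [ext_cl]; rfl
    | cast j =>
      rw [ext_cc]
      unfold proj bvec
      by_cases hij : i = j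
      · subst hij; simp
      · simp [hij]

theorem proj_ext {n : ℕ} (A : Fin n → Fin n → ℕ) (b : Fin n → ℕ) (β : ℕ) (hb : ∀ i, b i ≤ A i i) :
    proj (ext A b β) = A := by
  funext i j
  unfold proj
  rw [ext_cc, ext_cl]
  by_cases hij : i = j
  · subst hij; simp [hb]
  · simp [hij]

theorem bvec_ext {n : ℕ} (A : Fin n → Fin n → ℕ) (b : Fin n → ℕ) (β : ℕ) :
    bvec (ext A b β) = b := by
  funext i
  unfold bvec
  rw [ext_cl]

theorem finite_isT : ∀ (n : ℕ) (α : Fin n → ℕ), {A : Fin n → Fin n → ℕ | IsT α A}.Finite := by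
  intro n
  induction n with
  | zero => intro α; exact Set.toFinite _
  | succ n ih =>
    intro α
    have h1 := ih (fun i => α i.castSucc)
    have h2 : {A : Fin (n + 1) → Fin (n + 1) → ℕ | IsT α A} ⊆
        ⋃ A ∈ {A : Fin n → Fin n → ℕ | IsT (fun i => α i.castSucc) A},
          (fun b => ext A b (α (Fin.last n))) '' (Fintype.piFinset fun i => range (A i i + 1) : Set (Fin n → ℕ)) := by
      intro A hA
      have hA : IsT α A := hA
      rw [Set.mem_iUnion₂]
      refine ⟨proj A, proj_isT hA, bvec A, ?_, ext_proj hA⟩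
      rw [Finset.mem_coe, Fintype.mem_piFinset]
      intro i
      rw [Finset.mem_range, Nat.lt_succ_iff]
      unfold bvec proj
      simp
    exact (h1.biUnion fun A _ => (Finset.finite_toSet _).image _).subset h2

/-- the finite set of Tesler matrices -/
noncomputable def Tes {n : ℕ} (α : Fin n → ℕ) : Finset (Fin n → Fin n → ℕ) := (finite_isT n α).toFinset

theorem mem_Tes {n : ℕ} {α : Fin n → ℕ} {A : Fin n → Fin n → ℕ} : A ∈ Tes α ↔ IsT α A := by
  simp [Tes]

theorem T_eq {n : ℕ} (α : Fin n → ℕ) : T α = (Tes α).card := by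
  unfold T
  rw [← Nat.card_eq_finsetCard]
  apply Nat.card_congr
  apply Equiv.subtypeEquivRight
  intro A
  rw [isTesler_iff, mem_Tes]

/-- sum over the new diagonals -/
def step {n : ℕ} (β : ℕ) (F : (Fin (n + 1) → ℕ) → ℚ) (d : Fin n → ℕ) : ℚ :=
  ∑ b ∈ Fintype.piFinset (fun i => range (d i + 1)),
    F (Fin.snoc (α := fun _ => ℕ) (fun i => d i - b i) (β + ∑ i, b i))

theorem sum_step {n : ℕ} (α : Fin (n + 1) → ℕ) (F : (Fin (n + 1) → ℕ) → ℚ) :
    ∑ A ∈ Tes α, F (fun i => A i i)
      = ∑ A ∈ Tes (fun i : Fin n => α i.castSucc), step (α (Fin.last n)) F (fun i => A i i) := by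
  unfold step
  rw [Finset.sum_sigma']
  symm
  refine Finset.sum_bij (fun p _ => ext p.1 p.2 (α (Fin.last n))) ?_ ?_ ?_ ?_
  · rintro ⟨A, b⟩ hp
    rw [Finset.mem_sigma, mem_Tes, Fintype.mem_piFinset] at hp
    rw [mem_Tes]
    exact ext_isT hp.1 b (fun i => Nat.lt_succ_iff.1 (Finset.mem_range.1 (hp.2 i))) α (fun _ => rfl)
  · rintro ⟨A, b⟩ hp ⟨A', b'⟩ hp' h
    rw [Finset.mem_sigma, mem_Tes, Fintype.mem_piFinset] at hp hp'
    simp only at h hp hp'
    have h1 := proj_ext A b (α (Fin.last n)) (fun i => Nat.lt_succ_iff.1 (Finset.mem_range.1 (hp.2 i)))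
    have h2 := proj_ext A' b' (α (Fin.last n))
      (fun i => Nat.lt_succ_iff.1 (Finset.mem_range.1 (hp'.2 i)))
    have h3 := bvec_ext A b (α (Fin.last n))
    have h4 := bvec_ext A' b' (α (Fin.last n))
    rw [h] at h1 h3
    have e1 : A = A' := h1.symm.trans h2
    have e2 : b = b' := h3.symm.trans h4
    subst e1 e2
    rfl
  · intro A hA
    rw [mem_Tes] at hA
    refine ⟨⟨proj A, bvec A⟩, ?_, ext_proj hA⟩
    rw [Finset.mem_sigma, mem_Tes, Fintype.mem_piFinset]
    refine ⟨proj_isT hA, ?_⟩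
    intro i
    rw [Finset.mem_range, Nat.lt_succ_iff]
    simp [bvec, proj]
  · rintro ⟨A, b⟩ hp
    congr 1
    funext i
    induction i using Fin.lastCases with
    | last => simp [ext_ll]
    | cast i => simp [ext_cc]

/-- number of extensions by `k` further columns with hook sums `1` -/
def V : ℕ → ∀ m : ℕ, (Fin m → ℕ) → ℚ
  | 0, _, _ => 1
  | k + 1, m, d => step 1 (V k (m + 1)) d

/-- all hook sums equal to one -/
def one (n : ℕ) : Fin n → ℕ := fun _ => 1

theorem T_eq_V : ∀ k m : ℕ, (T (one (m + k)) : ℚ) = ∑ A ∈ Tes (one m), V k m (fun i => A i i) := by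
  intro k
  induction k with
  | zero =>
    intro m
    rw [T_eq]
    simp [V]
  | succ k ih =>
    intro m
    have h1 : m + (k + 1) = (m + 1) + k := by omega
    rw [h1, ih (m + 1), sum_step]
    rfl

theorem V_one (m : ℕ) (d : Fin m → ℕ) : V 1 m d = ∏ i, ((d i : ℚ) + 1) := by
  show step 1 (V 0 (m + 1)) d = _
  unfold step
  simp only [V, Finset.sum_const, nsmul_eq_mul, mul_one]
  rw [Fintype.card_piFinset]
  simp

theorem hockey (k d : ℕ) :
    ∑ b ∈ range (d + 1), ((d - b + k).choose k : ℚ) = ((d + k + 1).choose (k + 1) : ℚ) := by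
  have h0 : ∑ b ∈ range (d + 1), ((d - b + k).choose k : ℚ)
      = ∑ b ∈ range (d + 1), ((b + k).choose k : ℚ) := by
    rw [← Finset.sum_range_reflect]
    apply Finset.sum_congr rfl
    intro b hb
    rw [Finset.mem_range] at hb
    have : d - (d + 1 - 1 - b) = b := by omega
    rw [this]
  rw [h0]
  induction d with
  | zero => simp
  | succ d ih =>
    rw [Finset.sum_range_succ, ih (by
      rw [← Finset.sum_range_reflect]
      apply Finset.sum_congr rfl
      intro b hb
      rw [Finset.mem_range] at hb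
      have : d - (d + 1 - 1 - b) = b := by omega
      rw [this])]
    have : (d + 1 + k + 1).choose (k + 1) = (d + 1 + k).choose k + (d + 1 + k).choose (k + 1) :=
      Nat.choose_succ_succ _ _
    rw [this, show d + 1 + k = d + k + 1 by ring]
    push_cast
    ring

theorem hockey_weight (k d : ℕ) :
    ∑ b ∈ range (d + 1), (b : ℚ) * ((d - b + k).choose k : ℚ)
      = (d : ℚ) / (k + 2) * ((d + k + 1).choose (k + 1) : ℚ) := by
  have h1 : ∀ d : ℕ, ∑ b ∈ range (d + 1), (b : ℚ) * ((d - b + k).choose k : ℚ)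
      = ((d + k + 1).choose (k + 2) : ℚ) := by
    intro d
    induction d with
    | zero => simp
    | succ d ih =>
      rw [Finset.sum_range_succ']
      have h2 : ∀ b, ((b + 1 : ℕ) : ℚ) * ((d + 1 - (b + 1) + k).choose k : ℚ)
          = (b : ℚ) * ((d - b + k).choose k : ℚ) + ((d - b + k).choose k : ℚ) := by
        intro b
        rw [Nat.add_sub_add_right]
        push_cast; ring
      rw [Finset.sum_congr rfl fun b _ => h2 b, Finset.sum_add_distrib, ih, hockey]
      have : (d + 1 + k + 1).choose (k + 2) = (d + k + 1).choose (k + 1) + (d + k + 1).choose (k + 2) := by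
        rw [show d + 1 + k + 1 = (d + k + 1) + 1 by ring]
        exact Nat.choose_succ_succ _ _
      rw [this]
      push_cast
      ring
  rw [h1]
  have h3 := Nat.choose_succ_right_eq (d + k + 1) (k + 1)
  have h4 : d + k + 1 - (k + 1) = d := by omega
  rw [h4] at h3
  have h5 : ((d + k + 1).choose (k + 2) : ℚ) * (k + 2) = ((d + k + 1).choose (k + 1) : ℚ) * d := by
    exact_mod_cast h3
  have h6 : ((k : ℚ) + 2) ≠ 0 := by positivity
  field_simp
  linarith

theorem sum_prod (k m : ℕ) (d : Fin m → ℕ) :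
    ∑ b ∈ Fintype.piFinset (fun i => range (d i + 1)), ∏ i, ((d i - b i + k).choose k : ℚ)
      = ∏ i, ((d i + k + 1).choose (k + 1) : ℚ) := by
  have := Finset.prod_univ_sum (fun i => range (d i + 1)) (fun i b => ((d i - b + k).choose k : ℚ))
  rw [← this]
  exact Finset.prod_congr rfl fun i _ => hockey k (d i)

theorem sum_weight (k m : ℕ) (d : Fin m → ℕ) (j : Fin m) :
    ∑ b ∈ Fintype.piFinset (fun i => range (d i + 1)),
      (b j : ℚ) * ∏ i, ((d i - b i + k).choose k : ℚ)
      = (d j : ℚ) / (k + 2) * ∏ i, ((d i + k + 1).choose (k + 1) : ℚ) := by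
  have h1 := Finset.prod_univ_sum (fun i => range (d i + 1))
    (fun i b => (if i = j then (b : ℚ) else 1) * ((d i - b + k).choose k : ℚ))
  have h2 : ∀ b : Fin m → ℕ, ∏ i, ((if i = j then (b i : ℚ) else 1) * ((d i - b i + k).choose k : ℚ))
      = (b j : ℚ) * ∏ i, ((d i - b i + k).choose k : ℚ) := by
    intro b
    rw [Finset.prod_mul_distrib]
    congr 1
    simp
  rw [← Finset.sum_congr rfl fun b _ => h2 b, ← h1]
  have h3 : ∀ i, ∑ b ∈ range (d i + 1), (if i = j then (b : ℚ) else 1) * ((d i - b + k).choose k : ℚ)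
      = (if i = j then (d i : ℚ) / (k + 2) else 1) * ((d i + k + 1).choose (k + 1) : ℚ) := by
    intro i
    by_cases hij : i = j
    · simp only [hij, if_true]
      exact hockey_weight k (d j)
    · simp only [hij, if_false, one_mul]
      exact hockey k (d i)
  rw [Finset.prod_congr rfl fun i _ => h3 i, Finset.prod_mul_distrib]
  congr 1
  simp

theorem choose_lower (k s : ℕ) :
    ((k : ℚ) + 1) + s * (k * (k + 1) / 2) ≤ ((1 + s + k).choose k : ℚ) := by
  rcases Nat.eq_zero_or_pos k with rfl | hk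
  · simp
  induction s with
  | zero =>
    have : (1 + 0 + k).choose k = k + 1 := by
      rw [show 1 + 0 + k = k + 1 by ring, Nat.choose_succ_self_right]
    rw [this]; push_cast; simp
  | succ s ih =>
    obtain ⟨r, rfl⟩ : ∃ r, k = r + 1 := ⟨k - 1, by omega⟩
    have h1 : (1 + (s + 1) + (r + 1)).choose (r + 1)
        = (1 + s + (r + 1)).choose r + (1 + s + (r + 1)).choose (r + 1) := by
      rw [show 1 + (s + 1) + (r + 1) = (1 + s + (r + 1)) + 1 by ring]
      exact Nat.choose_succ_succ _ _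
    have h2 : (r + 2).choose r ≤ (1 + s + (r + 1)).choose r := Nat.choose_le_choose r (by omega)
    have h3 : ((r + 2).choose r : ℚ) = (r + 1) * (r + 2) / 2 := by
      have h4 : (r + 2).choose r = (r + 2).choose 2 := by
        rw [← Nat.choose_symm_of_eq_add (n := r + 2) (a := 2) (b := r) (by ring)]
      rw [h4, Nat.cast_choose_two]
      push_cast; ring
    have h5 : ((r + 1) * (r + 2) / 2 : ℚ) ≤ ((1 + s + (r + 1)).choose r : ℚ) := by
      rw [← h3]; exact_mod_cast h2
    rw [h1]
    push_cast at ih ⊢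
    nlinarith [ih, h5]

/-- the constant in the lower bound for `V` -/
def g : ℕ → ℕ → ℚ
  | 0, _ => 1
  | k + 1, n => g k (n + 1) * (((k : ℚ) + 1) * (1 + k * n / (2 * (k + 2))))

theorem g_nonneg (k : ℕ) : ∀ n, 0 ≤ g k n := by
  induction k with
  | zero => intro n; simp [g]
  | succ k ih =>
    intro n
    have := ih (n + 1)
    rw [g]
    positivity

theorem V_lower (k : ℕ) : ∀ (m : ℕ) (d : Fin m → ℕ),
    g k (∑ i, d i) * ∏ i, ((d i + k).choose k : ℚ) ≤ V k m d := by
  induction k with
  | zero => intro m d; simp [g, V]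
  | succ k ih =>
    intro m d
    show _ ≤ step 1 (V k (m + 1)) d
    unfold step
    have h1 : ∀ b ∈ Fintype.piFinset (fun i => range (d i + 1)),
        g k (∑ i, d i + 1) * (∏ i, ((d i - b i + k).choose k : ℚ)) *
          (((k : ℚ) + 1) + (∑ i, (b i : ℚ)) * (k * (k + 1) / 2)) ≤
        V k (m + 1) (Fin.snoc (α := fun _ => ℕ) (fun i => d i - b i) (1 + ∑ i, b i)) := by
      intro b hb
      refine le_trans ?_ (ih (m + 1) _)
      have hsum : ∑ i, (Fin.snoc (α := fun _ => ℕ) (fun i => d i - b i) (1 + ∑ i, b i) :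
          Fin (m + 1) → ℕ) i = ∑ i, d i + 1 := by
        rw [Fin.sum_univ_castSucc]
        simp only [Fin.snoc_castSucc, Fin.snoc_last]
        have : ∑ i, (d i - b i) + ∑ i, b i = ∑ i, d i := by
          rw [← Finset.sum_add_distrib]
          apply Finset.sum_congr rfl
          intro i _
          rw [Fintype.mem_piFinset] at hb
          have := Finset.mem_range.1 (hb i)
          omega
        omega
      rw [hsum, Fin.prod_univ_castSucc]
      simp only [Fin.snoc_castSucc, Fin.snoc_last]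
      have h2 := choose_lower k (∑ i, b i)
      have h3 : 0 ≤ g k (∑ i, d i + 1) * (∏ i, ((d i - b i + k).choose k : ℚ)) :=
        mul_nonneg (g_nonneg _ _) (Finset.prod_nonneg fun i _ => by positivity)
      rw [← mul_assoc]
      apply mul_le_mul_of_nonneg_left _ h3
      push_cast at h2 ⊢
      exact h2
    refine le_trans (le_of_eq ?_) (Finset.sum_le_sum h1)
    have h4 : ∀ b : Fin m → ℕ, g k (∑ i, d i + 1) * (∏ i, ((d i - b i + k).choose k : ℚ)) *
          (((k : ℚ) + 1) + (∑ i, (b i : ℚ)) * (k * (k + 1) / 2))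
        = g k (∑ i, d i + 1) * ((k : ℚ) + 1) * (∏ i, ((d i - b i + k).choose k : ℚ))
          + g k (∑ i, d i + 1) * (k * (k + 1) / 2) *
            ∑ j, ((b j : ℚ) * ∏ i, ((d i - b i + k).choose k : ℚ)) := by
      intro b
      rw [← Finset.sum_mul]
      ring
    rw [Finset.sum_congr rfl fun b _ => h4 b, Finset.sum_add_distrib, ← Finset.mul_sum,
      ← Finset.mul_sum, sum_prod, Finset.sum_comm, Finset.sum_congr rfl fun j _ => sum_weight k m d j,
      ← Finset.sum_mul, ← Finset.sum_div]
    have h5 : ∏ i, ((d i + (k + 1)).choose (k + 1) : ℚ) = ∏ i, ((d i + k + 1).choose (k + 1) : ℚ) :=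
      rfl
    rw [h5, g]
    push_cast
    have h6 : ((k : ℚ) + 2) ≠ 0 := by positivity
    field_simp

theorem one_add_sum_le {m : ℕ} (s : Finset (Fin m)) (x : Fin m → ℚ) (hx : ∀ i, 0 ≤ x i) :
    1 + ∑ i ∈ s, x i ≤ ∏ i ∈ s, (x i + 1) := by
  classical
  induction s using Finset.induction_on with
  | empty => simp
  | insert a s ha ih =>
    rw [Finset.sum_insert ha, Finset.prod_insert ha]
    have h1 := hx a
    have h2 : 0 ≤ ∑ i ∈ s, x i := Finset.sum_nonneg fun i _ => hx i
    nlinarith [mul_nonneg h1 h2]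

theorem T_append {n : ℕ} (α : Fin (n + 1) → ℕ) :
    (1 + ∑ i : Fin n, (α i.castSucc : ℚ)) * T (fun i : Fin n => α i.castSucc) ≤ T α := by
  have h1 : (T α : ℚ) = ∑ A ∈ Tes (fun i : Fin n => α i.castSucc), ∏ i, ((A i i : ℚ) + 1) := by
    rw [T_eq]
    have h2 := sum_step α (fun _ => 1)
    simp only [Finset.sum_const, nsmul_eq_mul, mul_one] at h2
    rw [h2]
    apply Finset.sum_congr rfl
    intro A _
    unfold step
    rw [Finset.sum_const, nsmul_eq_mul, mul_one, Fintype.card_piFinset]
    simp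
  rw [h1, T_eq]
  have h3 : (1 + ∑ i : Fin n, (α i.castSucc : ℚ)) * ((Tes (fun i : Fin n => α i.castSucc)).card : ℚ)
      = ∑ A ∈ Tes (fun i : Fin n => α i.castSucc), (1 + ∑ i : Fin n, (α i.castSucc : ℚ)) := by
    rw [Finset.sum_const, nsmul_eq_mul, mul_comm]
  rw [h3]
  apply Finset.sum_le_sum
  intro A hA
  rw [mem_Tes] at hA
  have h4 : (∑ i : Fin n, (α i.castSucc : ℚ)) = ∑ i, (A i i : ℚ) := by
    exact_mod_cast (diag_sum hA).symm
  rw [h4]
  exact one_add_sum_le univ _ fun i => by positivity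

/-- the hook sum vector `(1^k, 0^{n-k})` -/
def hook (n k : ℕ) : Fin n → ℕ := fun i => if (i : ℕ) < k then 1 else 0

theorem hook_self (k : ℕ) : hook k k = one k := by
  funext i; simp [hook, one]

theorem hook_sum (n k : ℕ) (h : k ≤ n) : ∑ i, (hook n k i : ℚ) = k := by
  unfold hook
  push_cast
  rw [Finset.sum_ite]
  simp [Fin.card_filter_val_lt, h]

theorem T_hook (k t : ℕ) : ((k : ℚ) + 1) ^ t * T (one k) ≤ T (hook (k + t) k) := by
  induction t with
  | zero => simp [hook_self]
  | succ t ih =>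
    have h1 := T_append (hook (k + t + 1) k)
    have h2 : (fun i : Fin (k + t) => hook (k + t + 1) k i.castSucc) = hook (k + t) k := by
      funext i; simp [hook]
    have h3 : ∑ i : Fin (k + t), (hook (k + t + 1) k i.castSucc : ℚ) = k := by
      rw [← hook_sum (k + t) k (by omega)]
      rfl
    rw [h2, h3] at h1
    have h4 : k + (t + 1) = k + t + 1 := by omega
    rw [h4]
    refine le_trans ?_ h1
    rw [pow_succ]
    have h5 : (0 : ℚ) ≤ (k : ℚ) + 1 := by positivity
    nlinarith [mul_le_mul_of_nonneg_left ih h5]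

theorem T_step (m : ℕ) : (2 + (m : ℚ) / 3) * (1 + (m : ℚ) / 2) * T (one (m + 1)) ≤ T (one (m + 2)) := by
  rw [T_eq_V 1 m, T_eq_V 2 m, Finset.mul_sum]
  apply Finset.sum_le_sum
  intro A hA
  rw [mem_Tes] at hA
  have hd : ∑ i, A i i = m := by
    rw [diag_sum hA]; simp [one]
  refine le_trans ?_ (V_lower 2 m (fun i => A i i))
  rw [hd, V_one]
  have hg : g 2 m = 2 + (m : ℚ) / 3 := by
    simp [g]; ring
  rw [hg, mul_assoc]
  apply mul_le_mul_of_nonneg_left _ (by positivity)
  have h1 : ∀ i, ((A i i + 2).choose 2 : ℚ) = ((A i i : ℚ) / 2 + 1) * ((A i i : ℚ) + 1) := by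
    intro i
    rw [Nat.cast_choose_two]
    push_cast; ring
  rw [Finset.prod_congr rfl fun i _ => h1 i, Finset.prod_mul_distrib]
  apply mul_le_mul_of_nonneg_right _ (Finset.prod_nonneg fun i _ => by positivity)
  refine le_trans (le_of_eq ?_) (one_add_sum_le univ (fun i => (A i i : ℚ) / 2) fun i => by positivity)
  rw [← Finset.sum_div]
  have : (∑ i, (A i i : ℚ)) = m := by exact_mod_cast hd
  rw [this]

theorem base : (12 : ℚ) ^ 10 ≤ T (one 11) := by
  have h1 := T_eq_V 11 0
  rw [show 0 + 11 = 11 from rfl] at h1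
  rw [h1]
  have hcard : (Tes (one 0)).card = 1 := by
    rw [Finset.card_eq_one]
    refine ⟨fun i => i.elim0, ?_⟩
    ext A
    rw [mem_Tes, Finset.mem_singleton]
    constructor
    · intro _; funext i; exact i.elim0
    · intro _; exact ⟨fun i => i.elim0, fun i => i.elim0⟩
  have h2 : ∀ A ∈ Tes (one 0), (12 : ℚ) ^ 10 ≤ V 11 0 (fun i => A i i) := by
    intro A _
    refine le_trans ?_ (V_lower 11 0 (fun i => A i i))
    simp [g]
    norm_num
  calc (12 : ℚ) ^ 10 = ∑ A ∈ Tes (one 0), (12 : ℚ) ^ 10 := by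
        rw [Finset.sum_const, hcard, one_smul]
    _ ≤ _ := Finset.sum_le_sum h2

theorem ineq (n : ℕ) (hn : 11 ≤ n) : 6 * ((n : ℚ) + 2) ^ n ≤ ((n : ℚ) + 5) * ((n : ℚ) + 1) ^ n := by
  rcases Nat.eq_or_lt_of_le hn with h | h
  · subst h; norm_num
  · have key : 6 * ((n : ℝ) + 2) ^ n ≤ ((n : ℝ) + 5) * ((n : ℝ) + 1) ^ n := by
      have hn1 : (0 : ℝ) < (n : ℝ) + 1 := by positivity
      have h1 : ((n : ℝ) + 2) = (1 / ((n : ℝ) + 1) + 1) * ((n : ℝ) + 1) := by
        field_simp; ring
      have h2 : (1 / ((n : ℝ) + 1) + 1) ^ n ≤ Real.exp 1 := by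
        calc (1 / ((n : ℝ) + 1) + 1) ^ n ≤ (Real.exp (1 / ((n : ℝ) + 1))) ^ n := by
              apply pow_le_pow_left₀ (by positivity)
              exact Real.add_one_le_exp _
          _ = Real.exp (n * (1 / ((n : ℝ) + 1))) := by rw [← Real.exp_nat_mul]
          _ ≤ Real.exp 1 := by
              apply Real.exp_le_exp.2
              rw [mul_one_div, div_le_one hn1]
              linarith
      have h3 : Real.exp 1 < 2.7182818286 := Real.exp_one_lt_d9
      have h4 : (12 : ℝ) ≤ n := by exact_mod_cast h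
      rw [h1, mul_pow]
      have h5 : 0 < ((n : ℝ) + 1) ^ n := by positivity
      have h6 : 6 * (1 / ((n : ℝ) + 1) + 1) ^ n ≤ (n : ℝ) + 5 := by nlinarith
      calc 6 * ((1 / ((n : ℝ) + 1) + 1) ^ n * ((n : ℝ) + 1) ^ n)
          = (6 * (1 / ((n : ℝ) + 1) + 1) ^ n) * ((n : ℝ) + 1) ^ n := by ring
        _ ≤ ((n : ℝ) + 5) * ((n : ℝ) + 1) ^ n := mul_le_mul_of_nonneg_right h6 h5.le
    exact_mod_cast key

theorem T_one (n : ℕ) (hn : 11 ≤ n) : ((n : ℚ) + 1) ^ (n - 1) ≤ T (one n) := by
  induction n, hn using Nat.le_induction with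
  | base => exact le_trans (by norm_num) base
  | succ n hn ih =>
    obtain ⟨m, rfl⟩ : ∃ m, n = m + 1 := ⟨n - 1, by omega⟩
    have h1 := T_step m
    have h2 := ineq (m + 1) hn
    simp only [Nat.add_sub_cancel] at ih ⊢
    push_cast at ih h2 ⊢
    have h3 : (0 : ℚ) ≤ (2 + (m : ℚ) / 3) * (1 + (m : ℚ) / 2) := by positivity
    have h4 := mul_le_mul_of_nonneg_left ih h3
    refine le_trans ?_ (le_trans h4 h1)
    have h5 : ((m : ℚ) + 1 + 1) ^ (m + 1) = ((m : ℚ) + 1 + 1) ^ m * ((m : ℚ) + 1 + 1) := pow_succ _ _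
    rw [h5] at h2
    have h6 : ((m : ℚ) + 1 + 1 + 1) = (m : ℚ) + 1 + 2 := by ring
    rw [h6]
    nlinarith [h2]

/-- For all `n ≥ k ≥ 11` there are at least `(k + 1) ^ (n - 1)` Tesler matrices with hook sums
`(1^k, 0^{n-k})`. -/
theorem result (n k : ℕ) (hk : 11 ≤ k) (hkn : k ≤ n) :
    (k + 1) ^ (n - 1) ≤ T (fun i : Fin n => if (i : ℕ) < k then 1 else 0) := by
  obtain ⟨t, rfl⟩ : ∃ t, n = k + t := ⟨n - k, by omega⟩
  have h1 := T_hook k t
  have h2 := T_one k hk
  have h3 : ((k : ℚ) + 1) ^ (k + t - 1) ≤ T (hook (k + t) k) := by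
    refine le_trans ?_ h1
    have h4 : k + t - 1 = t + (k - 1) := by omega
    rw [h4, pow_add]
    exact mul_le_mul_of_nonneg_left h2 (by positivity)
  have h5 : (((k + 1) ^ (k + t - 1) : ℕ) : ℚ) ≤ (T (hook (k + t) k) : ℚ) := by
    push_cast; exact h3
  exact_mod_cast h5

end Pool.Agent.Results.MP_1235ca_co.TeslerBound
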